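import Pool.Agent.Run7.h710.TR.Few
import Pool.Agent.N794.CG.Apps2
import Pool.Agent.N794.CG.Pairs

set_option autoImplicit false

/-! Transducers: the integers which are written are a family with decaying characteristic functions in the sense of the
starting files on primes and functions of residues (`Pool.Agent.R459.Eq`, `Pool.Agent.N794.CG`). -/

namespace Pool.Agent.Run7.h710.TR
open Finset
open Pool.Agent.TH872
open Pool.Agent.H807R2.Dav
open Pool.Agent.R459.Eq (Decays)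
open Pool.Agent.N794.CG (Dom Mostly Eng FineAt dom_of_decays eng_fine eng_ang QA)

/-- the weights -/
noncomputable def wt (a k : ℕ) (_ : ℕ) : ℝ := 1 / ((a ^ k : ℕ) : ℝ)

/-- the values -/
def val {S : Type} (a b : ℕ) (δ : S → ℕ → S) (o : S → ℕ → ℕ) (left : Bool) (k : ℕ) (s : S) (c κ : ℤ) (w : ℕ) : ℤ :=
  c + κ * (image a b δ o left k s w : ℕ)

lemma wt_nonneg (a k w : ℕ) : 0 ≤ wt a k w := by
  unfold wt
  positivity

lemma wt_sum (a k : ℕ) (ha : 0 < a) : ∑ i ∈ range (a ^ k), wt a k i = 1 := by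
  unfold wt
  rw [sum_const, card_range, nsmul_eq_mul]
  have : ((a ^ k : ℕ) : ℝ) ≠ 0 := by exact_mod_cast (pow_pos ha k).ne'
  field_simp

/-- the integers which are written have decaying characteristic functions -/
theorem tr_decays (a b L : ℕ) (hb : 2 ≤ b) (hL : 1 ≤ L) : ∃ γ : ℝ, 0 < γ ∧ γ < 1 ∧
    ∀ (S : Type) (δ : S → ℕ → S) (o : S → ℕ → ℕ), Transducer a b L δ o → ∀ (left : Bool) (s : S) (k : ℕ) (κ c : ℤ),
      Decays b (b.factorial * (b ^ L).factorial) (L + 1) k γ κ (range (a ^ k)) (wt a k) (val a b δ o left k s c κ) := by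
  obtain ⟨μ, hμ0, hμ1, H⟩ := d_pow (tr_dcls a b L hb hL)
  refine ⟨μ, hμ0, hμ1, fun S δ o hT left s k κ c => ?_⟩
  have ha := two_le hT s
  refine ⟨fun i _ => wt_nonneg a k i, wt_sum a k (by omega), fun θ N hfar _ => ?_⟩
  have h1 := H k _ ⟨S, δ, o, left, s, hT, rfl⟩ ((κ : ℝ) * θ) N (by
    refine le_trans ?_ hfar
    nlinarith [Nat.zero_le (L * N)])
  rw [sum_law_complex hb hT left k s (fun v => ee ((v : ℕ) * ((κ : ℝ) * θ)))] at h1
  have e1 : ∑ i ∈ range (a ^ k), (wt a k i : ℂ) * ee ((val a b δ o left k s c κ i : ℝ) * θ) =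
      ee ((c : ℝ) * θ) * ((∑ w ∈ range (a ^ k), ee ((image a b δ o left k s w : ℕ) * ((κ : ℝ) * θ))) / ((a ^ k : ℕ) : ℂ)) := by
    rw [sum_div, mul_sum]
    apply sum_congr rfl
    intro w _
    have e2 : ((val a b δ o left k s c κ w : ℝ) * θ) = (c : ℝ) * θ + (image a b δ o left k s w : ℕ) * ((κ : ℝ) * θ) := by
      unfold val
      push_cast
      ring
    rw [e2, ee_add]
    unfold wt
    push_cast
    ring
  rw [e1, norm_mul, norm_ee, one_mul]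
  exact h1

variable {S₀ : Type} {τ : ℕ → ℝ} {Q : S₀ → ℕ → ℤ → Prop}

/-- from theorems on dominated families to transducers -/
theorem eng_tr (H : Eng τ Q) (a b L : ℕ) (hb : 2 ≤ b) (hL : 1 ≤ L) : ∃ W : ℕ, 1 ≤ W ∧ ∀ κ : ℤ, κ ≠ 0 → ∃ X₀ : ℕ,
    ∀ X : ℕ, X₀ ≤ X → ∀ (k : ℕ) (S : Type) (δ : S → ℕ → S) (o : S → ℕ → ℕ), Transducer a b L δ o →
    ∀ (left : Bool) (s : S) (c : ℤ) (q : S₀),
      Mostly (range (a ^ k)) (wt a k) (val a b δ o left k s c κ) (τ X) (fun n => ∀ x : ℕ, X ≤ x → x ^ W ≤ b ^ k → Q q x n) := by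
  obtain ⟨γ, hγ0, hγ1, hdec⟩ := tr_decays a b L hb hL
  obtain ⟨W, hW, J⟩ := H b hb (L + 1) γ hγ0 hγ1
  refine ⟨W, hW, fun κ hκ => ?_⟩
  obtain ⟨X₀, K⟩ := J (b.factorial * (b ^ L).factorial) κ (Nat.mul_pos (Nat.factorial_pos _) (Nat.factorial_pos _)) hκ
  refine ⟨X₀, fun X hX k S δ o hT left s c q => ?_⟩
  have h1 := K X hX k _ _ _ _ _ (dom_of_decays (hdec S δ o hT left s k κ c)) q
  rwa [one_mul] at h1

/-- the one-dimensional statement for transducers -/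
theorem fineAt_tr (δ₀ : ℝ) (hδ : 0 < δ₀) (hδ1 : δ₀ ≤ 1 / 2) (a b L : ℕ) (hb : 2 ≤ b) (hL : 1 ≤ L) : ∃ W : ℕ, 1 ≤ W ∧
    ∀ κ : ℤ, κ ≠ 0 → ∃ X₀ : ℕ, ∀ X : ℕ, X₀ ≤ X → ∀ (k : ℕ) (S : Type) (δ : S → ℕ → S) (o : S → ℕ → ℕ), Transducer a b L δ o →
    ∀ (left : Bool) (s : S) (c : ℤ),
      FineAt δ₀ X (fun x => x ^ W ≤ b ^ k) (2 * (X : ℝ) ^ (-(δ₀ / 2))) (range (a ^ k)) (wt a k) (val a b δ o left k s c κ) := by
  obtain ⟨W, hW, H⟩ := eng_tr (eng_fine δ₀ hδ hδ1) a b L hb hL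
  refine ⟨W, hW, fun κ hκ => ?_⟩
  obtain ⟨X₀, J⟩ := H κ hκ
  exact ⟨X₀, fun X hX k S δ o hT left s c q => J X hX k S δ o hT left s c q⟩

/-- from probabilities to numbers -/
lemma card_of_mostly {a k : ℕ} (ha : 0 < a) {v : ℕ → ℤ} {t : ℝ} {P R : ℤ → Prop} (h : Mostly (range (a ^ k)) (wt a k) v t P)
    (hPR : ∀ n, P n → R n) {i : DecidablePred fun w => ¬ R (v w)} :
    ((@Finset.filter ℕ (fun w => ¬ R (v w)) i (range (a ^ k))).card : ℝ) ≤ t * (a : ℝ) ^ k := by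
  have h1 := h (@Finset.filter ℕ (fun w => ¬ R (v w)) i (range (a ^ k))) (filter_subset _ _)
    (fun w hw hP => (mem_filter.1 hw).2 (hPR _ hP))
  unfold wt at h1
  rw [sum_const, nsmul_eq_mul, mul_one_div] at h1
  have hak : (0 : ℝ) < ((a ^ k : ℕ) : ℝ) := by exact_mod_cast pow_pos ha k
  rw [div_le_iff₀ hak] at h1
  push_cast at h1
  exact h1

/-- from probabilities to numbers -/
lemma card_of_sum {a k : ℕ} (ha : 0 < a) {E : Finset ℕ} {t : ℝ} (h : ∑ i ∈ E, wt a k i ≤ t) :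
    (E.card : ℝ) ≤ t * (a : ℝ) ^ k := by
  unfold wt at h
  rw [sum_const, nsmul_eq_mul, mul_one_div] at h
  have hak : (0 : ℝ) < ((a ^ k : ℕ) : ℝ) := by exact_mod_cast pow_pos ha k
  rw [div_le_iff₀ hak] at h
  push_cast at h
  exact h

/-- from mean squares to numbers -/
lemma cheb {a k : ℕ} (ha : 0 < a) {f : ℕ → ℝ} {M Y l : ℝ} (hY : 0 < Y) (hl : 0 < l)
    (h : ∑ i ∈ range (a ^ k), wt a k i * (f i) ^ 2 ≤ M * Y ^ 2) {i : DecidablePred fun w => ¬ |f w| ≤ l * Y} :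
    ((@Finset.filter ℕ (fun w => ¬ |f w| ≤ l * Y) i (range (a ^ k))).card : ℝ) ≤ M / l ^ 2 * (a : ℝ) ^ k := by
  apply card_of_sum ha
  rw [le_div_iff₀ (by positivity)]
  have h1 : (∑ w ∈ @Finset.filter ℕ (fun w => ¬ |f w| ≤ l * Y) i (range (a ^ k)), wt a k w) * l ^ 2 * Y ^ 2 ≤ M * Y ^ 2 := by
    refine le_trans ?_ h
    rw [mul_assoc, sum_mul]
    refine le_trans (sum_le_sum fun w hw => ?_) (sum_le_sum_of_subset_of_nonneg (filter_subset _ _)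
      fun w _ _ => mul_nonneg (wt_nonneg a k w) (sq_nonneg _))
    apply mul_le_mul_of_nonneg_left _ (wt_nonneg a k w)
    have h2 := (mem_filter.1 hw).2
    push Not at h2
    have h3 : (l * Y) ^ 2 ≤ |f w| ^ 2 := pow_le_pow_left₀ (by positivity) h2.le 2
    rw [sq_abs, mul_pow] at h3
    exact h3
  exact le_of_mul_le_mul_right h1 (by positivity)

end Pool.Agent.Run7.h710.TR
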