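import Pool.Agent.Run7.h710.TR.C
import Pool.Agent.N625.PT.D

set_option autoImplicit false

/-! Classes of distributions of random integers with exponential decay: few large Fourier coefficients, with a power saving. -/

namespace Pool.Agent.Run7.h710.TR
open Finset
open Pool.Agent.TH872
open Pool.Agent.H807R2.Dav
open Pool.Agent.W93.AU
open Pool.Agent.W93.DG
open Pool.Agent.Results.MP_122e00_nt.SparseRandomShifts (FewLarge φ)

variable {b L M : ℕ} {C : ℕ → (ℕ → ℝ) → Prop}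

/-- exponential decay of the exponential sums in the number of the far places -/
theorem d_pow (hC : DCls b L M C) :
    ∃ μ : ℝ, 0 < μ ∧ μ < 1 ∧ ∀ (k : ℕ) (p : ℕ → ℝ), C k p → ∀ (θ : ℝ) (r : ℕ),
      r + L ≤ Mir.farCount b (b.factorial * M) k θ → ‖∑ v ∈ range (b ^ k), (p v : ℂ) * ee (v * θ)‖ ≤ μ ^ r := by
  classical
  have hb := hC.two
  have hB2 : (2 : ℝ) ≤ b := by exact_mod_cast hb
  have hF1 : (1 : ℝ) ≤ (b.factorial : ℝ) := by exact_mod_cast b.factorial_pos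
  obtain ⟨c, hc⟩ : ∃ c, c = 4 * (1 / ((b : ℝ) ^ 2 * (b.factorial : ℝ))) ^ 2 := ⟨_, rfl⟩
  have hc0 : 0 < c := by rw [hc]; positivity
  have hc1 : c ≤ 1 / 4 := by
    rw [hc]
    have e1 : (4 : ℝ) ≤ (b : ℝ) ^ 2 * (b.factorial : ℝ) := by nlinarith
    have e2 : 1 / ((b : ℝ) ^ 2 * (b.factorial : ℝ)) ≤ 1 / 4 := one_div_le_one_div_of_le (by norm_num) e1
    have e3 : 0 ≤ 1 / ((b : ℝ) ^ 2 * (b.factorial : ℝ)) := by positivity
    nlinarith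
  obtain ⟨μ, hμ0, hμ1, hdec⟩ := hC.decay c hc0 hc1
  refine ⟨μ, hμ0, hμ1, fun k p hp θ r hr => hdec k p hp θ r (hr.trans ?_)⟩
  unfold Mir.farCount gcount
  apply card_le_card
  intro j hj
  rw [mem_filter, mem_range] at hj ⊢
  refine ⟨hj.1, ?_⟩
  rw [hc]
  apply Pool.Agent.R557.AD.gd_of_far b hb
  have e1 : (b.factorial : ℝ) * ((b : ℝ) ^ j * ((M : ℝ) * θ)) =
      ((b.factorial * M : ℕ) : ℝ) * ((b : ℝ) ^ j * θ) := by
    push_cast
    ring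
  rw [e1]
  exact hj.2

/-- few large Fourier coefficients -/
theorem d_few (hC : DCls b L M C) (κ₁ : ℝ) (hκ₁ : 0 < κ₁) : ∃ θ : ℝ, 0 < θ ∧ θ ≤ 1 ∧ ∀ (μ : ℤ), μ ≠ 0 →
    ∃ k₀ : ℕ, ∀ k : ℕ, k₀ ≤ k → ∀ N : ℕ, b ^ k ≤ N →
    (N : ℝ) ≤ (b : ℝ) ^ ((1 + θ) * k) → ∀ p, C k p → ∀ cc : ℤ,
    FewLarge (fun v : {v // v ∈ range (b ^ k)} => p v.1) (fun v => cc + μ * (v.1 : ℕ)) N
      ((N : ℝ) ^ (-θ)) ((N : ℝ) ^ κ₁) := by
  classical
  have hb := hC.two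
  have hBr : (2 : ℝ) ≤ b := by exact_mod_cast hb
  have hB0 : (0 : ℝ) < b := by linarith
  obtain ⟨l, hl0, hl1, hchar⟩ := d_pow hC
  obtain ⟨v, hv⟩ := exists_pow_lt_of_lt_one (show 0 < (1 / (b : ℝ)) by positivity) hl1
  have hF : 1 ≤ b.factorial * M := Nat.mul_pos b.factorial_pos hC.one
  obtain ⟨θ, hθ0, hθ1, h1⟩ := Pool.Agent.R501.SP.few_far b (b.factorial * M) v L hb hF 1 one_pos κ₁ hκ₁
  refine ⟨θ, hθ0, hθ1, fun μ hμ => ?_⟩
  obtain ⟨k₀, h2⟩ := h1 μ hμ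
  refine ⟨k₀ + 1, fun k hk N hN1 hN2 p hp cc S hS hsep => ?_⟩
  have hN0 : (0 : ℝ) < N := by
    have : 1 ≤ b ^ k := Nat.one_le_pow _ _ (by omega)
    exact_mod_cast (by omega : 0 < N)
  refine h2 k (by omega) N hN1 hN2 S (fun a ha => ?_) hsep
  obtain ⟨g1, g2, h3⟩ := hS a ha
  refine ⟨g1, g2, fun n _ hthr => ?_⟩
  have h0 : ‖φ (fun v : {v // v ∈ range (b ^ k)} => p v.1) (fun v => cc + μ * (v.1 : ℕ)) a‖ =
      ‖∑ v ∈ range (b ^ k), (p v : ℂ) * ee (v * ((μ : ℝ) * a))‖ := by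
    have e1 : φ (fun v : {v // v ∈ range (b ^ k)} => p v.1) (fun v => cc + μ * (v.1 : ℕ)) a =
        ∑ v ∈ range (b ^ k), (p v : ℂ) * ee (((cc + μ * v : ℤ) : ℝ) * a) := by
      rw [← Finset.sum_coe_sort (range (b ^ k)) (fun v : ℕ => (p v : ℂ) * ee (((cc + μ * v : ℤ) : ℝ) * a))]
      rfl
    have e2 : ∑ v ∈ range (b ^ k), (p v : ℂ) * ee (((cc + μ * v : ℤ) : ℝ) * a) =
        ee ((cc : ℝ) * a) * ∑ v ∈ range (b ^ k), (p v : ℂ) * ee (v * ((μ : ℝ) * a)) := by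
      rw [mul_sum]
      apply sum_congr rfl
      intro v _
      have : (((cc + μ * v : ℤ) : ℝ) * a) = (cc : ℝ) * a + v * ((μ : ℝ) * a) := by
        push_cast
        ring
      rw [this, ee_add]
      ring
    rw [e1, e2, norm_mul, norm_ee, one_mul]
  rw [h0] at h3
  by_contra hcon
  push Not at hcon
  have h4 := hchar k p hp ((μ : ℝ) * a) (v * n) hcon
  have h6 : l ^ (v * n) ≤ (1 / (b : ℝ)) ^ n := by
    rw [pow_mul]
    exact pow_le_pow_left₀ (by positivity) hv.le _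
  linarith

end Pool.Agent.Run7.h710.TR
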